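import Pool.Agent.TBP.StmtsA

set_option autoImplicit false

/-!
# Row LOC of squad TBP (problem MP_ba39b0_nt)

The local series of the coefficients of `τ ^ (1 / log 2)`.
-/

namespace Pool.Agent.TBP.H64

open Finset Pool.Agent.TBP

theorem rho_le : rho ≤ 2 := by
  unfold rho
  have h := Real.log_two_gt_d9
  rw [div_le_iff₀ (by linarith)]
  linarith

theorem two_rho : (2 : ℝ) ^ rho = Real.exp 1 := by
  have h := Real.log_two_gt_d9
  rw [Real.rpow_def_of_pos (by norm_num)]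
  unfold rho
  rw [mul_one_div_cancel (by linarith)]

theorem term_le (p n : ℕ) (hp : 2 ≤ p) :
    ((((n + 2 : ℕ) : ℝ) + 1) ^ rho - (((n + 2 : ℕ) : ℝ)) ^ rho) / (p : ℝ) ^ (n + 2)
      ≤ ((n : ℝ) + 3) ^ 2 / 2 ^ n / (p : ℝ) ^ 2 := by
  have hp' : (2 : ℝ) ≤ p := by exact_mod_cast hp
  have h0 : (0 : ℝ) ≤ (((n + 2 : ℕ) : ℝ)) ^ rho := Real.rpow_nonneg (by positivity) _
  have h1 : (((n + 2 : ℕ) : ℝ) + 1) ^ rho ≤ ((n : ℝ) + 3) ^ 2 := by
    have h2 : (((n + 2 : ℕ) : ℝ) + 1) = (n : ℝ) + 3 := by push_cast; ring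
    rw [h2]
    have h3 : (1 : ℝ) ≤ (n : ℝ) + 3 := by
      have : (0 : ℝ) ≤ n := Nat.cast_nonneg n
      linarith
    have h4 := Real.rpow_le_rpow_of_exponent_le h3 rho_le
    have h5 : ((n : ℝ) + 3) ^ (2 : ℝ) = ((n : ℝ) + 3) ^ 2 := by
      exact_mod_cast Real.rpow_natCast ((n : ℝ) + 3) 2
    rw [h5] at h4
    exact h4
  have h6 : ((((n + 2 : ℕ) : ℝ) + 1) ^ rho - (((n + 2 : ℕ) : ℝ)) ^ rho) ≤ ((n : ℝ) + 3) ^ 2 := by
    linarith
  have hpp : (0 : ℝ) < (p : ℝ) ^ (n + 2) := by positivity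
  have h7 : ((((n + 2 : ℕ) : ℝ) + 1) ^ rho - (((n + 2 : ℕ) : ℝ)) ^ rho) / (p : ℝ) ^ (n + 2)
      ≤ ((n : ℝ) + 3) ^ 2 / (p : ℝ) ^ (n + 2) := by
    exact div_le_div_of_nonneg_right h6 hpp.le
  refine h7.trans ?_
  rw [div_div]
  apply div_le_div_of_nonneg_left (by positivity) (by positivity)
  rw [pow_add]
  apply mul_le_mul_of_nonneg_right _ (by positivity)
  exact pow_le_pow_left₀ (by norm_num) hp' n

theorem key (p : ℕ) (hp : 2 ≤ p) (n : ℕ) :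
    ∑ a ∈ Icc 1 (n + 1), (((a : ℝ) + 1) ^ rho - (a : ℝ) ^ rho) / (p : ℝ) ^ a
      ≤ (Real.exp 1 - 1) / p
        + (36 - (2 * (n : ℝ) ^ 2 + 16 * n + 36) / 2 ^ n) / (p : ℝ) ^ 2 := by
  induction n with
  | zero =>
    rw [zero_add, Icc_self, sum_singleton]
    have h1 : (((1 : ℕ) : ℝ) + 1) = 2 := by norm_num
    rw [h1, two_rho, Nat.cast_one, Real.one_rpow, pow_one]
    apply le_of_eq
    norm_num
  | succ n ih =>
    rw [sum_Icc_succ_top (by omega)]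
    have h1 := term_le p n hp
    have h2 : (36 - (2 * (((n + 1 : ℕ) : ℝ)) ^ 2 + 16 * ((n + 1 : ℕ) : ℝ) + 36) / 2 ^ (n + 1))
        = (36 - (2 * (n : ℝ) ^ 2 + 16 * n + 36) / 2 ^ n) + ((n : ℝ) + 3) ^ 2 / 2 ^ n := by
      have h3 : (2 : ℝ) ^ n ≠ 0 := by positivity
      rw [pow_succ]
      push_cast
      field_simp
      ring
    rw [h2, add_div, ← add_assoc]
    exact add_le_add ih h1

theorem loc : LocStmt := by
  intro p N hp
  have hp2 := hp.two_le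
  have hp' : (2 : ℝ) ≤ p := by exact_mod_cast hp2
  have he : (0 : ℝ) ≤ Real.exp 1 - 1 := by
    have := Real.add_one_le_exp (1 : ℝ)
    linarith
  rcases N with _ | n
  · rw [Icc_eq_empty (by omega), sum_empty]
    positivity
  · refine (key p hp2 n).trans ?_
    have h1 : (0 : ℝ) ≤ (2 * (n : ℝ) ^ 2 + 16 * n + 36) / 2 ^ n := by positivity
    have h2 : (36 - (2 * (n : ℝ) ^ 2 + 16 * n + 36) / 2 ^ n) / (p : ℝ) ^ 2 ≤ 40 / (p : ℝ) ^ 2 := by
      apply div_le_div_of_nonneg_right _ (by positivity)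
      linarith
    linarith

end Pool.Agent.TBP.H64
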